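import Mathlib
import Pool.Agent.Helper325.BorsukUlam

set_option autoImplicit false

/-!
The octahedral Tucker lemma, from the Borsuk-Ulam theorem for the boundary of the cross polytope.
-/

namespace Pool.Agent.Q163.BN

open Finset MeasureTheory Filter Topology

section Fin

variable {n : ℕ}

/-- coordinates above the threshold `t` -/
noncomputable def Pos (x : Fin n → ℝ) (t : ℝ) : Finset (Fin n) := univ.filter (fun i => t < x i)

/-- coordinates below the threshold `-t` -/
noncomputable def Neg (x : Fin n → ℝ) (t : ℝ) : Finset (Fin n) := univ.filter (fun i => x i < -t)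

theorem Pos_neg (x : Fin n → ℝ) (t : ℝ) : Pos (-x) t = Neg x t := by
  ext i
  simp only [Pos, Neg, mem_filter, mem_univ, true_and, Pi.neg_apply]
  constructor <;> intro h <;> linarith

theorem Neg_neg (x : Fin n → ℝ) (t : ℝ) : Neg (-x) t = Pos x t := by
  ext i
  simp only [Pos, Neg, mem_filter, mem_univ, true_and, Pi.neg_apply]
  constructor <;> intro h <;> linarith

theorem disj_Pos_Neg (x : Fin n → ℝ) (t : ℝ) (ht : 0 ≤ t) : Disjoint (Pos x t) (Neg x t) := by
  rw [Finset.disjoint_left]
  intro i h1 h2
  simp only [Pos, Neg, mem_filter, mem_univ, true_and] at h1 h2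
  linarith

open Classical in
/-- the contribution of the label `i + 1` -/
noncomputable def G (lam : Finset (Fin n) → Finset (Fin n) → ℤ) (i : ℕ) (P Q : Finset (Fin n)) : ℝ :=
  if (P ∪ Q).Nonempty ∧ Disjoint P Q then
    (if lam P Q = (i : ℤ) + 1 then 1 else if lam P Q = -((i : ℤ) + 1) then -1 else 0) else 0

theorem G_swap (lam : Finset (Fin n) → Finset (Fin n) → ℤ)
    (h2 : ∀ P Q, Disjoint P Q → (P ∪ Q).Nonempty → lam Q P = - lam P Q) (i : ℕ)
    (P Q : Finset (Fin n)) : G lam i Q P = - G lam i P Q := by
  unfold G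
  by_cases h : (P ∪ Q).Nonempty ∧ Disjoint P Q
  · have h' : (Q ∪ P).Nonempty ∧ Disjoint Q P := ⟨by rw [union_comm]; exact h.1, h.2.symm⟩
    rw [if_pos h, if_pos h', h2 P Q h.2 h.1]
    by_cases a : lam P Q = (i : ℤ) + 1
    · have b : ¬ (-lam P Q = (i : ℤ) + 1) := by omega
      have c : -lam P Q = -((i : ℤ) + 1) := by omega
      rw [if_neg b, if_pos c, if_pos a]
    · by_cases b : lam P Q = -((i : ℤ) + 1)
      · have c : -lam P Q = (i : ℤ) + 1 := by omega
        rw [if_pos c, if_neg a, if_pos b]
        norm_num
      · have c : ¬ (-lam P Q = (i : ℤ) + 1) := by omega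
        have d : ¬ (-lam P Q = -((i : ℤ) + 1)) := by omega
        rw [if_neg c, if_neg d, if_neg a, if_neg b]
        norm_num
  · have h' : ¬ ((Q ∪ P).Nonempty ∧ Disjoint Q P) := by
      rintro ⟨h3, h4⟩
      exact h ⟨by rw [union_comm]; exact h3, h4.symm⟩
    rw [if_neg h, if_neg h']
    norm_num

theorem G_abs_le (lam : Finset (Fin n) → Finset (Fin n) → ℤ) (i : ℕ) (P Q : Finset (Fin n)) :
    |G lam i P Q| ≤ 1 := by
  unfold G
  split_ifs <;> norm_num

theorem measurable_F (x : Fin n → ℝ) (H : Finset (Fin n) → Finset (Fin n) → ℝ) :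
    Measurable (fun t : ℝ => H (Pos x t) (Neg x t)) := by
  let _ : MeasurableSpace (Finset (Fin n)) := ⊤
  have h1 : Measurable (fun t : ℝ => Pos x t) := by
    apply measurable_to_countable'
    intro P
    have e : (fun t : ℝ => Pos x t) ⁻¹' {P} = ⋂ i : Fin n, {t : ℝ | t < x i ↔ i ∈ P} := by
      ext t
      simp only [Set.mem_preimage, Set.mem_singleton_iff, Set.mem_iInter, Set.mem_ofPred_eq]
      constructor
      · intro h i
        rw [← h]
        simp [Pos]
      · intro h
        ext i
        rw [← h i]
        simp [Pos]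
    rw [e]
    apply MeasurableSet.iInter
    intro i
    by_cases hi : i ∈ P
    · simp only [hi, iff_true]
      exact measurableSet_lt measurable_id measurable_const
    · simp only [hi, iff_false, not_lt]
      exact measurableSet_le measurable_const measurable_id
  have h2 : Measurable (fun t : ℝ => Neg x t) := by
    apply measurable_to_countable'
    intro P
    have e : (fun t : ℝ => Neg x t) ⁻¹' {P} = ⋂ i : Fin n, {t : ℝ | x i < -t ↔ i ∈ P} := by
      ext t
      simp only [Set.mem_preimage, Set.mem_singleton_iff, Set.mem_iInter, Set.mem_ofPred_eq]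
      constructor
      · intro h i
        rw [← h]
        simp [Neg]
      · intro h
        ext i
        rw [← h i]
        simp [Neg]
    rw [e]
    apply MeasurableSet.iInter
    intro i
    by_cases hi : i ∈ P
    · simp only [hi, iff_true]
      exact measurableSet_lt measurable_const measurable_neg
    · simp only [hi, iff_false, not_lt]
      exact measurableSet_le measurable_neg measurable_const
  have h3 : Measurable (fun t : ℝ => (Pos x t, Neg x t)) := h1.prodMk h2
  have h4 : Measurable (fun p : Finset (Fin n) × Finset (Fin n) => H p.1 p.2) :=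
    measurable_of_countable _
  exact h4.comp h3

theorem continuous_int (H : Finset (Fin n) → Finset (Fin n) → ℝ) (hH : ∀ P Q, |H P Q| ≤ 1) :
    Continuous (fun x : Fin n → ℝ => ∫ t in (0:ℝ)..1, H (Pos x t) (Neg x t)) := by
  rw [continuous_iff_continuousAt]
  intro x₀
  apply intervalIntegral.continuousAt_of_dominated_interval (bound := fun _ => (1 : ℝ))
  · exact Eventually.of_forall (fun x => (measurable_F x H).aestronglyMeasurable)
  · refine Eventually.of_forall (fun x => Eventually.of_forall (fun t _ => ?_))
    rw [Real.norm_eq_abs]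
    exact hH _ _
  · exact intervalIntegrable_const
  · have hfin : (Set.range x₀ ∪ Set.range (fun i => - x₀ i)).Finite :=
      (Set.finite_range _).union (Set.finite_range _)
    have h0 : ∀ᵐ t : ℝ, t ∉ (Set.range x₀ ∪ Set.range (fun i => - x₀ i)) := by
      rw [ae_iff]
      simp only [not_not, Set.ofPred_mem_eq]
      exact hfin.measure_zero _
    filter_upwards [h0] with t ht _
    have h1 : ∀ i, t ≠ x₀ i := fun i h => ht (Or.inl ⟨i, h.symm⟩)
    have h2 : ∀ i, t ≠ - x₀ i := fun i h => ht (Or.inr ⟨i, h.symm⟩)
    have e1 : ∀ᶠ x in 𝓝 x₀, Pos x t = Pos x₀ t := by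
      have : ∀ i : Fin n, ∀ᶠ x in 𝓝 x₀, (t < x i ↔ t < x₀ i) := by
        intro i
        have hc : Tendsto (fun x : Fin n → ℝ => x i) (𝓝 x₀) (𝓝 (x₀ i)) :=
          (continuous_apply i).continuousAt
        rcases lt_or_gt_of_ne (h1 i) with h | h
        · filter_upwards [hc.eventually (lt_mem_nhds h)] with x hx
          exact ⟨fun _ => h, fun _ => hx⟩
        · filter_upwards [hc.eventually (gt_mem_nhds h)] with x hx
          exact ⟨fun h' => absurd h' (not_lt.2 hx.le), fun h' => absurd h' (not_lt.2 h.le)⟩
      filter_upwards [eventually_all.2 this] with x hx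
      ext i
      simp only [Pos, mem_filter, mem_univ, true_and]
      exact hx i
    have e2 : ∀ᶠ x in 𝓝 x₀, Neg x t = Neg x₀ t := by
      have : ∀ i : Fin n, ∀ᶠ x in 𝓝 x₀, (x i < -t ↔ x₀ i < -t) := by
        intro i
        have hc : Tendsto (fun x : Fin n → ℝ => x i) (𝓝 x₀) (𝓝 (x₀ i)) :=
          (continuous_apply i).continuousAt
        have h3 : x₀ i ≠ -t := by
          intro h
          apply h2 i
          linarith
        rcases lt_or_gt_of_ne h3 with h | h
        · filter_upwards [hc.eventually (gt_mem_nhds h)] with x hx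
          exact ⟨fun _ => h, fun _ => hx⟩
        · filter_upwards [hc.eventually (lt_mem_nhds h)] with x hx
          exact ⟨fun h' => absurd h' (not_lt.2 hx.le), fun h' => absurd h' (not_lt.2 h.le)⟩
      filter_upwards [eventually_all.2 this] with x hx
      ext i
      simp only [Neg, mem_filter, mem_univ, true_and]
      exact hx i
    have e3 : (fun x : Fin n → ℝ => H (Pos x t) (Neg x t)) =ᶠ[𝓝 x₀]
        fun _ => H (Pos x₀ t) (Neg x₀ t) := by
      filter_upwards [e1, e2] with x a b
      rw [a, b]
    exact (continuousAt_const.congr e3.symm)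

theorem tucker_fin (m : ℕ) (lam : Finset (Fin (m + 1)) → Finset (Fin (m + 1)) → ℤ)
    (h1 : ∀ P Q, Disjoint P Q → (P ∪ Q).Nonempty → lam P Q ≠ 0 ∧ |lam P Q| ≤ m)
    (h2 : ∀ P Q, Disjoint P Q → (P ∪ Q).Nonempty → lam Q P = - lam P Q)
    (h3 : ∀ P Q P' Q', Disjoint P' Q' → P ⊆ P' → Q ⊆ Q' → (P ∪ Q).Nonempty →
      lam P Q + lam P' Q' ≠ 0) : False := by
  set f : (Fin (m + 1) → ℝ) → (Fin m → ℝ) :=
    fun x i => ∫ t in (0:ℝ)..1, G lam i (Pos x t) (Neg x t) with hf
  have hcont : Continuous f := by
    apply continuous_pi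
    intro i
    exact continuous_int (G lam i) (G_abs_le lam i)
  have hodd : ∀ x, f (-x) = -f x := by
    intro x
    funext i
    simp only [hf, Pi.neg_apply]
    rw [← intervalIntegral.integral_neg]
    congr 1
    funext t
    rw [Pos_neg, Neg_neg, G_swap lam h2]
  obtain ⟨x, hxK, hx0⟩ := Pool.Agent.Helper325.BorsukUlam.borsuk_ulam m f hcont hodd
  have hx1 : ∑ i, |x i| = 1 := hxK
  -- a nonzero coordinate
  obtain ⟨j, hj⟩ : ∃ j, x j ≠ 0 := by
    by_contra hcon
    push Not at hcon
    simp [hcon] at hx1
  set M := |x j| with hM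
  have hMpos : 0 < M := abs_pos.2 hj
  have hM1 : M ≤ 1 := by
    rw [← hx1]
    exact Finset.single_le_sum (f := fun i => |x i|) (fun i _ => abs_nonneg _) (mem_univ j)
  -- signs
  have hsign : ∀ i : Fin m, ∃ s : ℝ, ∀ t : ℝ, 0 ≤ t →
      s * G lam i (Pos x t) (Neg x t) = |G lam i (Pos x t) (Neg x t)| := by
    intro i
    by_cases hp : ∃ t : ℝ, 0 ≤ t ∧ G lam i (Pos x t) (Neg x t) = 1
    · refine ⟨1, fun t ht => ?_⟩
      rw [one_mul]
      symm
      rw [abs_eq_self]
      by_contra hneg
      obtain ⟨t', ht', hG'⟩ := hp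
      -- the value is -1 at t
      have hv : G lam i (Pos x t) (Neg x t) = -1 := by
        unfold G at hneg ⊢
        split_ifs at hneg ⊢ <;> first | rfl | (exfalso; norm_num at hneg)
      have k1 : lam (Pos x t) (Neg x t) = -((i : ℤ) + 1) ∧ (Pos x t ∪ Neg x t).Nonempty := by
        unfold G at hv
        split_ifs at hv with a b c
        · norm_num at hv
        · exact ⟨c, a.1⟩
        · norm_num at hv
        · norm_num at hv
      have k2 : lam (Pos x t') (Neg x t') = (i : ℤ) + 1 ∧ (Pos x t' ∪ Neg x t').Nonempty := by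
        unfold G at hG'
        split_ifs at hG' with a b c
        · exact ⟨b, a.1⟩
        · norm_num at hG'
        · norm_num at hG'
        · norm_num at hG'
      have mono : ∀ s s' : ℝ, s ≤ s' → Pos x s' ⊆ Pos x s ∧ Neg x s' ⊆ Neg x s := by
        intro s s' hs
        constructor
        · intro a ha
          simp only [Pos, mem_filter, mem_univ, true_and] at ha ⊢
          linarith
        · intro a ha
          simp only [Neg, mem_filter, mem_univ, true_and] at ha ⊢
          linarith
      rcases le_total t t' with h | h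
      · exact h3 _ _ _ _ (disj_Pos_Neg x t ht) (mono _ _ h).1 (mono _ _ h).2 k2.2 (by
          rw [k1.1, k2.1]; ring)
      · exact h3 _ _ _ _ (disj_Pos_Neg x t' ht') (mono _ _ h).1 (mono _ _ h).2 k1.2 (by
          rw [k1.1, k2.1]; ring)
    · refine ⟨-1, fun t ht => ?_⟩
      rw [neg_one_mul]
      symm
      rw [abs_eq_neg_self]
      by_contra hpos
      apply hp
      refine ⟨t, ht, ?_⟩
      unfold G at hpos ⊢
      split_ifs at hpos ⊢ <;> first | rfl | (exfalso; norm_num at hpos)
  choose s hs using hsign
  have hint : ∀ i : Fin m, IntervalIntegrable (fun t => G lam i (Pos x t) (Neg x t)) volume 0 1 := by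
    intro i
    apply IntervalIntegrable.mono_fun (g := fun t => G lam i (Pos x t) (Neg x t))
      (f := fun _ => (1:ℝ)) intervalIntegrable_const
    · exact (measurable_F x (G lam i)).aestronglyMeasurable
    · refine Eventually.of_forall (fun t => ?_)
      rw [Real.norm_eq_abs]
      simpa using G_abs_le lam i (Pos x t) (Neg x t)
  have hzero : ∫ t in (0:ℝ)..1, ∑ i : Fin m, s i * G lam i (Pos x t) (Neg x t) = 0 := by
    rw [intervalIntegral.integral_finsetSum]
    · apply Finset.sum_eq_zero
      intro i _
      rw [intervalIntegral.integral_const_mul]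
      have : f x i = 0 := by rw [hx0]; rfl
      simp only [hf] at this
      rw [this, mul_zero]
    · intro i _
      exact (hint i).const_mul _
  have hlow : ∫ t in (0:ℝ)..1, (if t < M then (1:ℝ) else 0) ≤
      ∫ t in (0:ℝ)..1, ∑ i : Fin m, s i * G lam i (Pos x t) (Neg x t) := by
    apply intervalIntegral.integral_mono_on zero_le_one
    · apply IntervalIntegrable.mono_fun (f := fun _ => (1:ℝ)) intervalIntegrable_const
      · apply Measurable.aestronglyMeasurable
        exact Measurable.ite (measurableSet_lt measurable_id measurable_const) measurable_const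
          measurable_const
      · refine Eventually.of_forall (fun t => ?_)
        simp only
        split_ifs <;> norm_num
    · have hsum := IntervalIntegrable.sum (Finset.univ : Finset (Fin m))
        (f := fun (i : Fin m) (t : ℝ) => s i * G lam i (Pos x t) (Neg x t))
        (fun i _ => (hint i).const_mul (s i))
      have e0 : (fun t => ∑ i : Fin m, s i * G lam i (Pos x t) (Neg x t)) =
          ∑ i : Fin m, fun t => s i * G lam i (Pos x t) (Neg x t) := by
        funext t
        rw [Finset.sum_apply]
      rw [e0]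
      exact hsum
    · intro t ht
      have ht0 : 0 ≤ t := ht.1
      rw [Finset.sum_congr rfl (fun i _ => hs i t ht0)]
      split_ifs with h
      · have hne : (Pos x t ∪ Neg x t).Nonempty := by
          refine ⟨j, ?_⟩
          rw [mem_union]
          rcases lt_abs.1 h with h' | h'
          · left
            simp only [Pos, mem_filter, mem_univ, true_and]
            exact h'
          · right
            simp only [Neg, mem_filter, mem_univ, true_and]
            linarith
        have hd := disj_Pos_Neg x t ht0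
        obtain ⟨hl0, hlm⟩ := h1 _ _ hd hne
        -- the label
        have hnat : (lam (Pos x t) (Neg x t)).natAbs ≠ 0 := by
          rwa [Int.natAbs_ne_zero]
        have hlt : (lam (Pos x t) (Neg x t)).natAbs - 1 < m := by
          have := abs_le.1 hlm
          omega
        refine le_trans (le_of_eq ?_) (Finset.single_le_sum
          (f := fun i : Fin m => |G lam i (Pos x t) (Neg x t)|)
          (fun i _ => abs_nonneg _) (mem_univ ⟨(lam (Pos x t) (Neg x t)).natAbs - 1, hlt⟩))
        simp only [G]
        rw [if_pos ⟨hne, hd⟩]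
        by_cases hs1 : 0 < lam (Pos x t) (Neg x t)
        · rw [if_pos (by omega)]
          norm_num
        · rw [if_neg (by omega), if_pos (by omega)]
          norm_num
      · exact Finset.sum_nonneg (fun i _ => abs_nonneg _)
  have hval : ∫ t in (0:ℝ)..1, (if t < M then (1:ℝ) else 0) = M := by
    have e1 : ∫ t in (0:ℝ)..M, (if t < M then (1:ℝ) else 0) = ∫ t in (0:ℝ)..M, (1:ℝ) := by
      apply intervalIntegral.integral_congr_ae
      have h0 : ∀ᵐ t : ℝ, t ≠ M := by
        rw [ae_iff]
        simp
      filter_upwards [h0] with t ht htI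
      rw [Set.uIoc_of_le hMpos.le] at htI
      rw [if_pos (lt_of_le_of_ne htI.2 ht)]
    have e2 : ∫ t in M..(1:ℝ), (if t < M then (1:ℝ) else 0) = 0 := by
      rw [intervalIntegral.integral_zero_ae]
      refine Eventually.of_forall (fun t htI => ?_)
      rw [Set.uIoc_of_le hM1] at htI
      rw [if_neg (not_lt.2 htI.1.le)]
    have hi : ∀ a b : ℝ, IntervalIntegrable (fun t : ℝ => if t < M then (1:ℝ) else 0) volume a b := by
      intro a b
      apply IntervalIntegrable.mono_fun (f := fun _ => (1:ℝ)) intervalIntegrable_const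
      · apply Measurable.aestronglyMeasurable
        exact Measurable.ite (measurableSet_lt measurable_id measurable_const) measurable_const
          measurable_const
      · refine Eventually.of_forall (fun t => ?_)
        simp only
        split_ifs <;> norm_num
    rw [← intervalIntegral.integral_add_adjacent_intervals (hi 0 M) (hi M 1), e1, e2]
    simp
  rw [hzero, hval] at hlow
  linarith

end Fin

/-- The octahedral Tucker lemma. -/
theorem tucker {α : Type} [Fintype α] [DecidableEq α] (m : ℕ)
    (lam : Finset α → Finset α → ℤ)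
    (h1 : ∀ P Q, Disjoint P Q → (P ∪ Q).Nonempty → lam P Q ≠ 0 ∧ |lam P Q| ≤ m)
    (h2 : ∀ P Q, Disjoint P Q → (P ∪ Q).Nonempty → lam Q P = - lam P Q)
    (h3 : ∀ P Q P' Q', Disjoint P' Q' → P ⊆ P' → Q ⊆ Q' → (P ∪ Q).Nonempty →
      lam P Q + lam P' Q' ≠ 0) : Fintype.card α ≤ m := by
  by_contra hlt
  push Not at hlt
  obtain ⟨k, hk⟩ : ∃ k, Fintype.card α = k + 1 := ⟨Fintype.card α - 1, by omega⟩
  let e : Fin (k + 1) ≃ α := (Fintype.equivFinOfCardEq hk).symm
  have hmap : ∀ P Q : Finset (Fin (k + 1)), Disjoint P Q → Disjoint (P.map e.toEmbedding)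
      (Q.map e.toEmbedding) := fun P Q h => (Finset.disjoint_map _).2 h
  have hne : ∀ P Q : Finset (Fin (k + 1)), (P ∪ Q).Nonempty →
      (P.map e.toEmbedding ∪ Q.map e.toEmbedding).Nonempty := by
    intro P Q h
    rw [← Finset.map_union]
    exact h.map
  refine tucker_fin k (fun P Q => lam (P.map e.toEmbedding) (Q.map e.toEmbedding)) ?_ ?_ ?_
  · intro P Q hd hn
    obtain ⟨a, b⟩ := h1 _ _ (hmap P Q hd) (hne P Q hn)
    refine ⟨a, b.trans ?_⟩
    have : m ≤ k := by omega
    exact_mod_cast this
  · intro P Q hd hn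
    exact h2 _ _ (hmap P Q hd) (hne P Q hn)
  · intro P Q P' Q' hd hP hQ hn
    exact h3 _ _ _ _ (hmap P' Q' hd) (Finset.map_subset_map.2 hP) (Finset.map_subset_map.2 hQ)
      (hne P Q hn)

end Pool.Agent.Q163.BN
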