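import Mathlib
import Pool.Agent.Q163.BN.Tucker
import Pool.Agent.H478R3.Borsuk.Inter

set_option autoImplicit false
set_option linter.unusedSectionVars false
set_option linter.unusedVariables false

/-!
A lower bound of Lovász-Kneser type for colourings of the bases of a matroid (given by its rank
function): if disjoint bases get different colours, then there is a set `C` which does not span,
such that the number of colours is at least `|E \ C| - 2 (r(E) - r(C)) + 2`.
-/

namespace Pool.Agent.Q163.BN

open Finset
open Pool.Agent.H478R3.Borsuk (IsRF)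

variable {γ : Type} [Fintype γ] [DecidableEq γ]

/-- closure -/
def cl (r : Finset γ → ℕ) (P : Finset γ) : Finset γ := univ.filter (fun e => r (insert e P) = r P)

/-- bases of a rank function -/
def IsBs (r : Finset γ → ℕ) (B : Finset γ) : Prop := r B = B.card ∧ r B = r univ

section cl

variable {r : Finset γ → ℕ} (h : IsRF r)

include h

theorem subset_cl (P : Finset γ) : P ⊆ cl r P := by
  intro e he
  simp only [cl, mem_filter, mem_univ, true_and]
  rw [insert_eq_self.2 he]

theorem r_union_of_subset_cl (P T : Finset γ) (hT : T ⊆ cl r P) : r (P ∪ T) = r P := by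
  induction T using Finset.induction_on with
  | empty => simp
  | insert e T he ih =>
    have h1 := ih (fun x hx => hT (mem_insert_of_mem hx))
    have h2 : r (insert e P) = r P := by
      have := hT (mem_insert_self e T)
      simpa [cl] using this
    have h3 := h.sub (insert e P) (P ∪ T)
    have e1 : insert e P ∪ (P ∪ T) = P ∪ insert e T := by
      ext x; simp only [mem_union, mem_insert]; tauto
    have h4 : r P ≤ r (insert e P ∩ (P ∪ T)) := h.mono _ _ (by
      intro x hx
      simp only [mem_inter, mem_insert, mem_union]
      exact ⟨Or.inr hx, Or.inl hx⟩)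
    have h5 : r P ≤ r (P ∪ insert e T) := h.mono _ _ subset_union_left
    rw [e1] at h3
    omega

theorem r_cl (P : Finset γ) : r (cl r P) = r P := by
  have h1 := r_union_of_subset_cl h P (cl r P) (subset_refl _)
  rwa [union_eq_right.2 (subset_cl h P)] at h1

theorem mem_cl_of (P : Finset γ) (e : γ) (Q : Finset γ) (hPQ : P ⊆ Q) (he : e ∈ Q)
    (hr : r Q = r P) : e ∈ cl r P := by
  simp only [cl, mem_filter, mem_univ, true_and]
  have h1 : r P ≤ r (insert e P) := h.mono _ _ (subset_insert _ _)
  have h2 : r (insert e P) ≤ r Q := h.mono _ _ (insert_subset he hPQ)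
  omega

theorem cl_mono {P Q : Finset γ} (hPQ : P ⊆ Q) : cl r P ⊆ cl r Q := by
  intro e he
  have h2 : r (insert e P) = r P := by simpa [cl] using he
  have h3 := h.sub (insert e P) Q
  have e1 : insert e P ∪ Q = insert e Q := by
    ext x; simp only [mem_union, mem_insert]
    constructor
    · rintro ((h | h) | h)
      · exact Or.inl h
      · exact Or.inr (hPQ h)
      · exact Or.inr h
    · rintro (h | h)
      · exact Or.inl (Or.inl h)
      · exact Or.inr h
  have h4 : r P ≤ r (insert e P ∩ Q) := h.mono _ _ (by
    intro x hx
    simp only [mem_inter, mem_insert]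
    exact ⟨Or.inr hx, hPQ hx⟩)
  have h5 : r Q ≤ r (insert e Q) := h.mono _ _ (subset_insert _ _)
  rw [e1] at h3
  simp only [cl, mem_filter, mem_univ, true_and]
  omega

/-- a closed set which contains `P` and is of the same rank is the closure of `P` -/
theorem cl_eq_of {P Q : Finset γ} (hPQ : cl r P ⊆ cl r Q) (hr : r Q ≤ r P) : cl r P = cl r Q := by
  apply Finset.Subset.antisymm hPQ
  intro e he
  have h1 : r (cl r Q) = r Q := r_cl h Q
  have h2 : r (cl r P) = r P := r_cl h P
  have h3 : r P ≤ r Q := by
    rw [← h1, ← h2]
    exact h.mono _ _ hPQ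
  exact mem_cl_of h P e (cl r Q) ((subset_cl h P).trans hPQ) he (by omega)

theorem r_union_card (A B : Finset γ) : r (A ∪ B) ≤ r A + B.card := by
  induction B using Finset.induction_on with
  | empty => simp
  | insert e B he ih =>
    rw [union_insert, card_insert_of_notMem he]
    have := h.ins e (A ∪ B)
    omega

theorem r_le_card (A : Finset γ) : r A ≤ A.card := by
  have := r_union_card h ∅ A
  rw [empty_union, h.empty] at this
  omega

/-- maximal independent subsets -/
theorem exists_basis (P : Finset γ) : ∃ B ⊆ P, r B = B.card ∧ r B = r P := by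
  obtain ⟨I, hI, hmax⟩ := Finset.exists_max_image (P.powerset.filter (fun I => r I = I.card))
    Finset.card ⟨∅, by simp [h.empty]⟩
  rw [mem_filter, mem_powerset] at hI
  refine ⟨I, hI.1, hI.2, ?_⟩
  have h1 : P ⊆ cl r I := by
    intro e he
    simp only [cl, mem_filter, mem_univ, true_and]
    by_contra hne
    have heI : e ∉ I := by
      intro h2
      rw [insert_eq_self.2 h2] at hne
      exact hne rfl
    have h2 : r I ≤ r (insert e I) := h.mono _ _ (subset_insert _ _)
    have h3 := h.ins e I
    have h4 : r (insert e I) = (insert e I).card := by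
      rw [card_insert_of_notMem heI]
      omega
    have h5 := hmax (insert e I) (by
      rw [mem_filter, mem_powerset]
      exact ⟨insert_subset he hI.1, h4⟩)
    rw [card_insert_of_notMem heI] at h5
    omega
  have h2 := h.mono _ _ h1
  rw [r_cl h] at h2
  have h3 := h.mono _ _ hI.1
  omega

end cl

section label

variable (r : Finset γ → ℕ)

/-- the weight of a set -/
def wt (C : Finset γ) : ℕ := C.card + 2 * (r univ - r C)

/-- the maximal weight of the subsets of `F` -/
def gw (F : Finset γ) : ℕ := F.powerset.sup (wt r)

theorem gw_exists (F : Finset γ) : ∃ C ⊆ F, gw r F = wt r C := by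
  obtain ⟨C, hC, h⟩ := Finset.exists_mem_eq_sup F.powerset ⟨∅, empty_mem_powerset _⟩ (wt r)
  exact ⟨C, mem_powerset.1 hC, h⟩

theorem le_gw {F C : Finset γ} (h : C ⊆ F) : wt r C ≤ gw r F :=
  Finset.le_sup (f := wt r) (mem_powerset.2 h)

theorem gw_mono {F F' : Finset γ} (h : F ⊆ F') : gw r F ≤ gw r F' :=
  Finset.sup_mono (powerset_mono.2 h)

variable {r}

/-- a subset of smaller rank and of maximal weight -/
theorem cp_exists (h : IsRF r) (F : Finset γ) : ∃ C ⊆ F, (r F ≠ 0 → r C < r F ∧
    ∀ D ⊆ F, r D < r F → wt r D ≤ wt r C) ∧ (r F = 0 → C = ∅) := by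
  by_cases hF : r F = 0
  · exact ⟨∅, empty_subset _, fun h => absurd hF h, fun _ => rfl⟩
  · have hne : (F.powerset.filter (fun C => r C < r F)).Nonempty := by
      refine ⟨∅, ?_⟩
      rw [mem_filter]
      refine ⟨empty_mem_powerset _, ?_⟩
      rw [h.empty]
      omega
    obtain ⟨C, hC, hmax⟩ := Finset.exists_max_image _ (wt r) hne
    rw [mem_filter, mem_powerset] at hC
    refine ⟨C, hC.1, fun _ => ⟨hC.2, fun D hD hr => hmax D ?_⟩, fun h => absurd h hF⟩
    rw [mem_filter, mem_powerset]
    exact ⟨hD, hr⟩

open Classical in
/-- the chosen subset of smaller rank and of maximal weight -/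
noncomputable def cp (h : IsRF r) (F : Finset γ) : Finset γ := (cp_exists h F).choose

theorem cp_sub (h : IsRF r) (F : Finset γ) : cp h F ⊆ F := (cp_exists h F).choose_spec.1

theorem cp_lt (h : IsRF r) {F : Finset γ} (hF : r F ≠ 0) : r (cp h F) < r F :=
  ((cp_exists h F).choose_spec.2.1 hF).1

theorem cp_max (h : IsRF r) {F : Finset γ} (hF : r F ≠ 0) (D : Finset γ) (hD : D ⊆ F)
    (hr : r D < r F) : wt r D ≤ wt r (cp h F) :=
  ((cp_exists h F).choose_spec.2.1 hF).2 D hD hr

theorem cp_zero (h : IsRF r) {F : Finset γ} (hF : r F = 0) : cp h F = ∅ :=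
  (cp_exists h F).choose_spec.2.2 hF

/-- an arbitrary element of a nonempty set -/
noncomputable def pk [Nonempty γ] (T : Finset γ) : γ :=
  if hT : T.Nonempty then hT.choose else Classical.arbitrary γ

theorem pk_mem [Nonempty γ] {T : Finset γ} (hT : T.Nonempty) : pk T ∈ T := by
  unfold pk
  rw [dif_pos hT]
  exact hT.choose_spec

/-- an injection of the sets into the natural numbers -/
noncomputable def io (A : Finset γ) : ℕ := (Fintype.equivFin (Finset γ) A).val

theorem io_inj {A B : Finset γ} (hAB : io A = io B) : A = B := by
  unfold io at hAB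
  exact (Fintype.equivFin (Finset γ)).injective (Fin.ext hAB)

/-- the level of a pair -/
noncomputable def lev (h : IsRF r) (P Q : Finset γ) : ℤ :=
  if cl r P = cl r Q then ((cp h (cl r P)).card + ((P ∪ Q) \ cp h (cl r P)).card : ℕ)
  else (r P + r Q + gw r (cl r P ∩ cl r Q) : ℕ) - 2 * (r univ : ℕ)

open Classical in
/-- the sign of a pair -/
noncomputable def sg [Nonempty γ] (h : IsRF r) (P Q : Finset γ) : ℤ :=
  if cl r P = cl r Q then (if pk ((P ∪ Q) \ cp h (cl r P)) ∈ P then 1 else -1)
  else (if io (cl r P) < io (cl r Q) then 1 else -1)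

theorem T_nonempty (h : IsRF r) {P Q : Finset γ} (hcl : cl r P = cl r Q)
    (hne : (P ∪ Q).Nonempty) : ((P ∪ Q) \ cp h (cl r P)).Nonempty := by
  by_cases h0 : r (cl r P) = 0
  · rw [cp_zero h h0, sdiff_empty]
    exact hne
  · rw [sdiff_nonempty]
    intro hsub
    have h1 := cp_lt h h0
    have h2 := h.mono P (cp h (cl r P)) (subset_union_left.trans hsub)
    rw [r_cl h] at h1
    omega

theorem sg_cases [Nonempty γ] (h : IsRF r) (P Q : Finset γ) : sg h P Q = 1 ∨ sg h P Q = -1 := by
  unfold sg
  split_ifs <;> simp

theorem lev_comm (h : IsRF r) (P Q : Finset γ) : lev h Q P = lev h P Q := by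
  unfold lev
  by_cases hcl : cl r P = cl r Q
  · rw [if_pos hcl, if_pos hcl.symm, union_comm, ← hcl]
  · rw [if_neg hcl, if_neg (fun e => hcl e.symm), inter_comm, add_comm (r Q)]

theorem sg_comm [Nonempty γ] (h : IsRF r) (P Q : Finset γ) (hd : Disjoint P Q)
    (hne : (P ∪ Q).Nonempty) : sg h Q P = - sg h P Q := by
  unfold sg
  by_cases hcl : cl r P = cl r Q
  · rw [if_pos hcl, if_pos hcl.symm, union_comm Q P, ← hcl]
    have hT := pk_mem (T_nonempty h hcl hne)
    rw [mem_sdiff, mem_union] at hT
    rcases hT.1 with h1 | h1
    · rw [if_pos h1, if_neg (Finset.disjoint_left.1 hd h1)]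
    · rw [if_pos h1, if_neg (Finset.disjoint_right.1 hd h1)]
      norm_num
  · rw [if_neg hcl, if_neg (fun e => hcl e.symm)]
    rcases lt_trichotomy (io (cl r P)) (io (cl r Q)) with h1 | h1 | h1
    · rw [if_pos h1, if_neg (by omega)]
    · exact absurd (io_inj h1) hcl
    · rw [if_pos h1, if_neg (by omega)]
      norm_num

theorem lev_pos (h : IsRF r) (P Q : Finset γ) (hne : (P ∪ Q).Nonempty) : 1 ≤ lev h P Q := by
  unfold lev
  by_cases hcl : cl r P = cl r Q
  · rw [if_pos hcl]
    have := (T_nonempty h hcl hne).card_pos
    push_cast
    omega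
  · rw [if_neg hcl]
    have h1 : wt r (∅ : Finset γ) ≤ gw r (cl r P ∩ cl r Q) := le_gw r (empty_subset _)
    have h2 : wt r (∅ : Finset γ) = 2 * r univ := by
      unfold wt
      rw [h.empty]
      simp
    have h3 : 1 ≤ r P + r Q := by
      by_contra hcon
      have hP : r P = 0 := by omega
      have hQ : r Q = 0 := by omega
      apply hcl
      have key : ∀ X : Finset γ, r X = 0 → cl r X = cl r ∅ := by
        intro X hX
        symm
        apply cl_eq_of h (cl_mono h (empty_subset _))
        omega
      rw [key P hP, key Q hQ]
    push_cast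
    omega

variable {L : ℕ}

theorem r_le_univ (h : IsRF r) (C : Finset γ) : r C ≤ r univ := h.mono _ _ (subset_univ _)

/-- the levels are bounded -/
theorem lev_le (h : IsRF r) (hL : ∀ C, r C < r univ → C.card + 2 * r univ ≤ L + 2 * r C + 2)
    (P Q : Finset γ) (hP : r P < r univ) (hQ : r Q < r univ) : lev h P Q ≤ L := by
  unfold lev
  by_cases hcl : cl r P = cl r Q
  · rw [if_pos hcl]
    set F := cl r P with hF
    have hsub : (P ∪ Q) \ cp h F ⊆ F \ cp h F := by
      apply sdiff_subset_sdiff _ (subset_refl _)
      apply union_subset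
      · exact subset_cl h P
      · rw [hcl]
        exact subset_cl h Q
    have h1 := card_le_card hsub
    have h2 := card_sdiff_add_card_eq_card (cp_sub h F)
    have h3 : r F = r P := r_cl h P
    have h4 := hL F (by omega)
    push_cast
    omega
  · rw [if_neg hcl]
    obtain ⟨C, hC, hCe⟩ := gw_exists r (cl r P ∩ cl r Q)
    have h3 : r C ≤ r P := by
      rw [← r_cl h P]
      exact h.mono _ _ (hC.trans inter_subset_left)
    have h4 := hL C (by omega)
    rw [hCe]
    unfold wt
    push_cast
    omega

/-- comparison of the levels and signs of comparable pairs -/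
theorem compare [Nonempty γ] (h : IsRF r) (P Q P' Q' : Finset γ) (hd : Disjoint P' Q')
    (hP : P ⊆ P') (hQ : Q ⊆ Q') (hne : (P ∪ Q).Nonempty) :
    lev h P Q < lev h P' Q' ∨ (lev h P Q = lev h P' Q' ∧ sg h P Q = sg h P' Q') := by
  have mP : cl r P ⊆ cl r P' := cl_mono h hP
  have mQ : cl r Q ⊆ cl r Q' := cl_mono h hQ
  have rP : r P ≤ r P' := h.mono _ _ hP
  have rQ : r Q ≤ r Q' := h.mono _ _ hQ
  have bR : ∀ C, r C ≤ r univ := r_le_univ h
  by_cases c1 : cl r P = cl r Q
  · by_cases c2 : cl r P' = cl r Q'
    · -- both diagonal
      by_cases c3 : cl r P = cl r P'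
      · -- the same flat
        have hsub : (P ∪ Q) \ cp h (cl r P) ⊆ (P' ∪ Q') \ cp h (cl r P) :=
          sdiff_subset_sdiff (union_subset_union hP hQ) (subset_refl _)
        rcases lt_or_eq_of_le (card_le_card hsub) with h1 | h1
        · left
          unfold lev
          rw [if_pos c1, if_pos c2, ← c3]
          push_cast
          omega
        · right
          have h2 : (P ∪ Q) \ cp h (cl r P) = (P' ∪ Q') \ cp h (cl r P) :=
            eq_of_subset_of_card_le hsub h1.ge
          constructor
          · unfold lev
            rw [if_pos c1, if_pos c2, ← c3, h1]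
          · unfold sg
            rw [if_pos c1, if_pos c2, ← c3, ← h2]
            have hT := pk_mem (T_nonempty h c1 hne)
            rw [mem_sdiff, mem_union] at hT
            rcases hT.1 with h3 | h3
            · rw [if_pos h3, if_pos (hP h3)]
            · rw [if_neg (fun h4 => Finset.disjoint_left.1 hd (hP h4) (hQ h3)),
                if_neg (Finset.disjoint_right.1 hd (hQ h3))]
      · left
        set F := cl r P with hF
        set F' := cl r P' with hF'
        have hrF : r F = r P := r_cl h P
        have hrF' : r F' = r P' := r_cl h P'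
        have hlt : r F < r F' := by
          by_contra hcon
          exact c3 (cl_eq_of h mP (by omega))
        have e1 : lev h P Q ≤ F.card := by
          unfold lev
          rw [if_pos c1]
          have hsub : (P ∪ Q) \ cp h F ⊆ F \ cp h F := by
            apply sdiff_subset_sdiff _ (subset_refl _)
            apply union_subset
            · exact subset_cl h P
            · rw [c1]
              exact subset_cl h Q
          have h1 := card_le_card hsub
          have h2 := card_sdiff_add_card_eq_card (cp_sub h F)
          rw [← hF]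
          push_cast
          omega
        have h0 : r F' ≠ 0 := by omega
        have h5 := cp_max h h0 F mP hlt
        have h6 := cp_lt h h0
        have h7 : r P' ≤ r (cp h F') + (P' \ cp h F').card := by
          have := r_union_card h (cp h F') (P' \ cp h F')
          have h8 := h.mono P' (cp h F' ∪ P' \ cp h F') (by
            intro x hx
            by_cases hx' : x ∈ cp h F'
            · exact mem_union_left _ hx'
            · exact mem_union_right _ (mem_sdiff.2 ⟨hx, hx'⟩))
          omega
        have h7' : r Q' ≤ r (cp h F') + (Q' \ cp h F').card := by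
          have := r_union_card h (cp h F') (Q' \ cp h F')
          have h8 := h.mono Q' (cp h F' ∪ Q' \ cp h F') (by
            intro x hx
            by_cases hx' : x ∈ cp h F'
            · exact mem_union_left _ hx'
            · exact mem_union_right _ (mem_sdiff.2 ⟨hx, hx'⟩))
          omega
        have h9 : r Q' = r P' := by
          rw [← r_cl h Q', ← c2, hrF']
        have h10 : ((P' ∪ Q') \ cp h F').card = (P' \ cp h F').card + (Q' \ cp h F').card := by
          rw [union_sdiff_distrib, card_union_of_disjoint]
          exact Finset.disjoint_of_subset_left sdiff_subset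
            (Finset.disjoint_of_subset_right sdiff_subset hd)
        have e2 : lev h P' Q' = ((cp h F').card + ((P' ∪ Q') \ cp h F').card : ℕ) := by
          unfold lev
          rw [if_pos c2]
        rw [e2, h10]
        unfold wt at h5
        have b1 := bR F
        have b2 := bR F'
        push_cast
        omega
    · -- diagonal below non-diagonal
      left
      set F := cl r P with hF
      have hrF : r F = r P := r_cl h P
      have e1 : lev h P Q ≤ F.card := by
        unfold lev
        rw [if_pos c1]
        have hsub : (P ∪ Q) \ cp h F ⊆ F \ cp h F := by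
          apply sdiff_subset_sdiff _ (subset_refl _)
          apply union_subset
          · exact subset_cl h P
          · rw [c1]
            exact subset_cl h Q
        have h1 := card_le_card hsub
        have h2 := card_sdiff_add_card_eq_card (cp_sub h F)
        rw [← hF]
        push_cast
        omega
      have h2 : F ⊆ cl r P' ∩ cl r Q' := subset_inter mP (by rw [c1]; exact mQ)
      have h3 := le_gw r h2
      have h4 : r P + r Q + 1 ≤ r P' + r Q' := by
        by_contra hcon
        apply c2
        have hrQ : r Q = r P := by rw [← r_cl h Q, ← c1, hrF]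
        have a1 : cl r P = cl r P' := cl_eq_of h mP (by omega)
        have a2 : cl r Q = cl r Q' := cl_eq_of h mQ (by omega)
        rw [← a1, ← a2]
        exact c1
      have hrQ : r Q = r P := by rw [← r_cl h Q, ← c1, hrF]
      have e2 : lev h P' Q' = (r P' + r Q' + gw r (cl r P' ∩ cl r Q') : ℕ) - 2 * (r univ : ℕ) := by
        unfold lev
        rw [if_neg c2]
      rw [e2]
      unfold wt at h3
      have b1 := bR F
      push_cast
      omega
  · by_cases c2 : cl r P' = cl r Q'
    · -- non-diagonal below diagonal
      left
      set F := cl r P' with hF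
      have hrF : r F = r P' := r_cl h P'
      have hrQ : r Q' = r P' := by rw [← r_cl h Q', ← c2, hrF]
      have h4 : r P + r Q + 1 ≤ r P' + r Q' := by
        by_contra hcon
        apply c1
        have a1 : cl r P = cl r P' := cl_eq_of h mP (by omega)
        have a2 : cl r Q = cl r Q' := cl_eq_of h mQ (by omega)
        rw [a1, a2]
        exact c2
      obtain ⟨C, hC, hCe⟩ := gw_exists r (cl r P ∩ cl r Q)
      have h5 : r C ≤ r P := by
        rw [← r_cl h P]
        exact h.mono _ _ (hC.trans inter_subset_left)
      have h5' : r C ≤ r Q := by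
        rw [← r_cl h Q]
        exact h.mono _ _ (hC.trans inter_subset_right)
      have h0 : r F ≠ 0 := by omega
      have h6 := cp_max h h0 C ((hC.trans inter_subset_left).trans mP) (by omega)
      have h6' := cp_lt h h0
      have h7 : r P' ≤ r (cp h F) + (P' \ cp h F).card := by
        have := r_union_card h (cp h F) (P' \ cp h F)
        have h8 := h.mono P' (cp h F ∪ P' \ cp h F) (by
          intro x hx
          by_cases hx' : x ∈ cp h F
          · exact mem_union_left _ hx'
          · exact mem_union_right _ (mem_sdiff.2 ⟨hx, hx'⟩))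
        omega
      have h7' : r Q' ≤ r (cp h F) + (Q' \ cp h F).card := by
        have := r_union_card h (cp h F) (Q' \ cp h F)
        have h8 := h.mono Q' (cp h F ∪ Q' \ cp h F) (by
          intro x hx
          by_cases hx' : x ∈ cp h F
          · exact mem_union_left _ hx'
          · exact mem_union_right _ (mem_sdiff.2 ⟨hx, hx'⟩))
        omega
      have h10 : ((P' ∪ Q') \ cp h F).card = (P' \ cp h F).card + (Q' \ cp h F).card := by
        rw [union_sdiff_distrib, card_union_of_disjoint]
        exact Finset.disjoint_of_subset_left sdiff_subset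
          (Finset.disjoint_of_subset_right sdiff_subset hd)
      have e1 : lev h P Q = (r P + r Q + gw r (cl r P ∩ cl r Q) : ℕ) - 2 * (r univ : ℕ) := by
        unfold lev
        rw [if_neg c1]
      have e2 : lev h P' Q' = ((cp h F).card + ((P' ∪ Q') \ cp h F).card : ℕ) := by
        unfold lev
        rw [if_pos c2]
      rw [e1, e2, h10, hCe]
      unfold wt at h6 ⊢
      have b1 := bR C
      have b2 := bR F
      push_cast
      omega
    · -- both non-diagonal
      have e1 : lev h P Q = (r P + r Q + gw r (cl r P ∩ cl r Q) : ℕ) - 2 * (r univ : ℕ) := by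
        unfold lev
        rw [if_neg c1]
      have e2 : lev h P' Q' = (r P' + r Q' + gw r (cl r P' ∩ cl r Q') : ℕ) - 2 * (r univ : ℕ) := by
        unfold lev
        rw [if_neg c2]
      have h3 : gw r (cl r P ∩ cl r Q) ≤ gw r (cl r P' ∩ cl r Q') :=
        gw_mono r (inter_subset_inter mP mQ)
      by_cases h4 : r P + r Q + 1 ≤ r P' + r Q'
      · left
        rw [e1, e2]
        push_cast
        omega
      · right
        have a1 : cl r P = cl r P' := cl_eq_of h mP (by omega)
        have a2 : cl r Q = cl r Q' := cl_eq_of h mQ (by omega)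
        constructor
        · rw [e1, e2, ← a1, ← a2]
          have : r P' + r Q' = r P + r Q := by omega
          rw [this]
        · unfold sg
          rw [if_neg c1, if_neg c2, ← a1, ← a2]

end label

section main

variable {r : Finset γ → ℕ} {m : ℕ}

open Classical in
/-- the largest colour of a base in `P`, plus one -/
noncomputable def mu (r : Finset γ → ℕ) (κ : Finset γ → Fin m) (P : Finset γ) : ℕ :=
  (univ.filter (fun B : Finset γ => IsBs r B ∧ B ⊆ P)).sup (fun B => (κ B).val + 1)

theorem mu_mem (κ : Finset γ → Fin m) (P : Finset γ) (hP : mu r κ P ≠ 0) :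
    ∃ B, IsBs r B ∧ B ⊆ P ∧ mu r κ P = (κ B).val + 1 := by
  classical
  unfold mu at hP ⊢
  have hne : (univ.filter (fun B : Finset γ => IsBs r B ∧ B ⊆ P)).Nonempty := by
    rw [Finset.nonempty_iff_ne_empty]
    intro h0
    rw [h0] at hP
    simp at hP
  obtain ⟨B, hB, hBe⟩ := Finset.exists_mem_eq_sup _ hne (fun B => (κ B).val + 1)
  rw [mem_filter] at hB
  exact ⟨B, hB.2.1, hB.2.2, hBe⟩

theorem mu_le (κ : Finset γ → Fin m) (P : Finset γ) : mu r κ P ≤ m := by
  by_cases hP : mu r κ P = 0
  · omega
  · obtain ⟨B, -, -, h⟩ := mu_mem κ P hP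
    have := (κ B).isLt
    omega

theorem mu_pos (h : IsRF r) (κ : Finset γ → Fin m) (P : Finset γ) (hP : r P = r univ) :
    mu r κ P ≠ 0 := by
  classical
  obtain ⟨B, hB, h1, h2⟩ := exists_basis h P
  have h3 : (κ B).val + 1 ≤ mu r κ P := by
    unfold mu
    apply Finset.le_sup (f := fun B => (κ B).val + 1)
    rw [mem_filter]
    exact ⟨mem_univ _, ⟨h1, by rw [h2, hP]⟩, hB⟩
  omega

theorem mu_ne (κ : Finset γ → Fin m)
    (hκ : ∀ B B', IsBs r B → IsBs r B' → Disjoint B B' → κ B ≠ κ B')
    (P Q : Finset γ) (hd : Disjoint P Q) (hP : mu r κ P ≠ 0) : mu r κ P ≠ mu r κ Q := by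
  intro he
  obtain ⟨B, hB, hBP, e1⟩ := mu_mem κ P hP
  obtain ⟨B', hB', hBQ, e2⟩ := mu_mem κ Q (by rw [← he]; exact hP)
  apply hκ B B' hB hB' (Finset.disjoint_of_subset_left hBP (Finset.disjoint_of_subset_right hBQ hd))
  apply Fin.ext
  omega

open Classical in
/-- the labelling -/
noncomputable def lam [Nonempty γ] (h : IsRF r) (κ : Finset γ → Fin m) (L : ℕ) (P Q : Finset γ) : ℤ :=
  if r P = r univ ∨ r Q = r univ then
    (if mu r κ Q < mu r κ P then (L : ℤ) + mu r κ P else -((L : ℤ) + mu r κ Q))
  else sg h P Q * lev h P Q

/-- **Lower bound** for the number of colours. -/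
theorem kneser_lower [Nonempty γ] (h : IsRF r) (κ : Finset γ → Fin m)
    (hκ : ∀ B B', IsBs r B → IsBs r B' → Disjoint B B' → κ B ≠ κ B') :
    ∃ C : Finset γ, r C < r univ ∧
      Fintype.card γ + 2 * r C + 2 ≤ m + 2 * r univ + C.card := by
  by_contra hcon
  push Not at hcon
  -- the rank is positive
  have hR : 0 < r univ := by
    by_contra h0
    have h1 : IsBs r ∅ := by
      unfold IsBs
      rw [h.empty]
      simp
      omega
    exact hκ ∅ ∅ h1 h1 (by simp) rfl
  have h00 := hcon ∅ (by rw [h.empty]; exact hR)
  rw [h.empty, card_empty] at h00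
  set L := Fintype.card γ - 1 - m with hLdef
  have hL : ∀ C, r C < r univ → C.card + 2 * r univ ≤ L + 2 * r C + 2 := by
    intro C hC
    have := hcon C hC
    omega
  have key := tucker (α := γ) (Fintype.card γ - 1) (lam h κ L) ?_ ?_ ?_
  · have : 0 < Fintype.card γ := Fintype.card_pos
    omega
  · -- bounds
    intro P Q hd hne
    unfold lam
    by_cases hb : r P = r univ ∨ r Q = r univ
    · rw [if_pos hb]
      have b1 := mu_le (r := r) κ P
      have b2 := mu_le (r := r) κ Q
      split_ifs with hlt
      · constructor
        · omega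
        · rw [abs_le]
          constructor <;> omega
      · have hQ : 0 < mu r κ Q := by
          rcases hb with hb | hb
          · have h1 := mu_pos h κ P hb
            omega
          · have h1 := mu_pos h κ Q hb
            omega
        constructor
        · omega
        · rw [abs_le]
          constructor <;> omega
    · rw [if_neg hb]
      push Not at hb
      have hP : r P < r univ := lt_of_le_of_ne (r_le_univ h P) hb.1
      have hQ : r Q < r univ := lt_of_le_of_ne (r_le_univ h Q) hb.2
      have h1 := lev_pos h P Q hne
      have h2 := lev_le h hL P Q hP hQ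
      rcases sg_cases h P Q with hs | hs
      · rw [hs, one_mul]
        constructor
        · omega
        · rw [abs_le]
          constructor <;> omega
      · rw [hs, neg_one_mul]
        constructor
        · omega
        · rw [abs_le]
          constructor <;> omega
  · -- antisymmetry
    intro P Q hd hne
    unfold lam
    by_cases hb : r P = r univ ∨ r Q = r univ
    · rw [if_pos hb, if_pos hb.symm]
      have hne' : mu r κ P ≠ mu r κ Q := by
        rcases hb with hb | hb
        · exact mu_ne κ hκ P Q hd (mu_pos h κ P hb)
        · exact (mu_ne κ hκ Q P hd.symm (mu_pos h κ Q hb)).symm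
      rcases lt_or_gt_of_ne hne' with h1 | h1
      · rw [if_pos h1, if_neg (by omega)]
        ring
      · rw [if_neg (by omega), if_pos h1]
    · rw [if_neg hb, if_neg (fun hb' => hb hb'.symm), lev_comm, sg_comm h P Q hd hne]
      ring
  · -- no complementary comparable pairs
    intro P Q P' Q' hd hP hQ hne
    unfold lam
    by_cases hb : r P = r univ ∨ r Q = r univ
    · have hb' : r P' = r univ ∨ r Q' = r univ := by
        rcases hb with hb | hb
        · left
          have h1 := h.mono _ _ hP
          have h2 := r_le_univ h P'
          omega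
        · right
          have h1 := h.mono _ _ hQ
          have h2 := r_le_univ h Q'
          omega
      rw [if_pos hb, if_pos hb']
      split_ifs with c1 c2 c2
      · omega
      · -- mu P > mu Q, mu P' <= mu Q'
        intro h0
        have he : mu r κ P = mu r κ Q' := by omega
        exact mu_ne κ hκ P Q' (Finset.disjoint_of_subset_left hP hd) (by omega) he
      · intro h0
        have he : mu r κ Q = mu r κ P' := by omega
        refine mu_ne κ hκ Q P' (Finset.disjoint_of_subset_left hQ hd.symm) ?_ he
        omega
      · have hQ' : 0 < mu r κ Q' := by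
          rcases hb' with hb | hb
          · have h1 := mu_pos h κ P' hb
            omega
          · have h1 := mu_pos h κ Q' hb
            omega
        omega
    · rw [if_neg hb]
      push Not at hb
      have hP1 : r P < r univ := lt_of_le_of_ne (r_le_univ h P) hb.1
      have hQ1 : r Q < r univ := lt_of_le_of_ne (r_le_univ h Q) hb.2
      have h1 := lev_pos h P Q hne
      have h2 := lev_le h hL P Q hP1 hQ1
      by_cases hb' : r P' = r univ ∨ r Q' = r univ
      · rw [if_pos hb']
        have hpos : mu r κ Q' < mu r κ P' ∨ 0 < mu r κ Q' := by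
          rcases hb' with hb | hb
          · have h1 := mu_pos h κ P' hb
            omega
          · have h1 := mu_pos h κ Q' hb
            omega
        rcases sg_cases h P Q with hs | hs
        · rw [hs]
          split_ifs <;> omega
        · rw [hs]
          split_ifs <;> omega
      · rw [if_neg hb']
        rcases compare h P Q P' Q' hd hP hQ hne with h3 | ⟨h3, h4⟩
        · rcases sg_cases h P Q with hs | hs <;> rcases sg_cases h P' Q' with hs' | hs' <;>
            rw [hs, hs'] <;> omega
        · rw [h3, h4]
          rcases sg_cases h P' Q' with hs' | hs' <;> rw [hs'] <;> omega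

end main

end Pool.Agent.Q163.BN
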