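import Mathlib
import Pool.Agent.Q163.BN.Kneser

set_option autoImplicit false
set_option linter.unusedSectionVars false
set_option linter.unusedVariables false

/-!
The pairs of bases of a matroid at maximal distance, as the disjoint pairs of bases of another
matroid (given by its rank function `rN`), and the colourings of Kneser type.
-/

namespace Pool.Agent.Q163.BN

open Finset
open Pool.Agent.H478R3.Borsuk (IsRF)

variable {α : Type} [Fintype α] [DecidableEq α]

noncomputable def rkf (M : Matroid α) (X : Finset α) : ℕ :=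
  (M.eRk (X : Set α)).toNat

theorem coe_rkf (M : Matroid α) (X : Finset α) :
    ((rkf M X : ℕ) : ℕ∞) = M.eRk (X : Set α) := by
  unfold rkf
  apply ENat.natCast_toNat
  have h := M.eRk_le_encard (X : Set α)
  intro htop
  rw [htop, Set.encard_coe_eq_coe_finsetCard, top_le_iff] at h
  exact absurd h (ENat.natCast_ne_top _)

theorem rkf_RF (M : Matroid α) : IsRF (rkf M) where
  empty := by
    have h := coe_rkf M ∅
    rw [Finset.coe_empty, M.eRk_empty] at h
    exact_mod_cast h
  mono := by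
    intro A B hAB
    have h : M.eRk (A : Set α) ≤ M.eRk (B : Set α) := M.eRk_mono (by exact_mod_cast hAB)
    rw [← coe_rkf, ← coe_rkf] at h
    exact_mod_cast h
  ins := by
    intro e A
    have h := M.eRk_insert_le_add_one e (A : Set α)
    rw [← Finset.coe_insert, ← coe_rkf, ← coe_rkf] at h
    exact_mod_cast h
  sub := by
    intro A B
    have h := M.eRk_inter_add_eRk_union_le (A : Set α) (B : Set α)
    rw [← Finset.coe_inter, ← Finset.coe_union, ← coe_rkf, ← coe_rkf, ← coe_rkf, ← coe_rkf] at h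
    have h' : rkf M (A ∩ B) + rkf M (A ∪ B) ≤ rkf M A + rkf M B := by exact_mod_cast h
    omega

theorem indep_of_rkf (M : Matroid α) (X : Finset α) (h : rkf M X = X.card) :
    M.Indep (X : Set α) := by
  rw [M.indep_iff_eRk_eq_encard_of_finite X.finite_toSet, ← coe_rkf, h,
    Set.encard_coe_eq_coe_finsetCard]

theorem rkf_of_indep (M : Matroid α) (X : Finset α) (h : M.Indep (X : Set α)) :
    rkf M X = X.card := by
  have h1 := (M.indep_iff_eRk_eq_encard_of_finite X.finite_toSet).1 h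
  rw [← coe_rkf, Set.encard_coe_eq_coe_finsetCard] at h1
  exact_mod_cast h1

/-- the ground set as a finset -/
noncomputable def EF (M : Matroid α) : Finset α := by
  classical
  exact univ.filter (fun e => e ∈ M.E)

theorem mem_EF (M : Matroid α) (e : α) : e ∈ EF M ↔ e ∈ M.E := by
  simp [EF]

theorem coe_EF (M : Matroid α) : (EF M : Set α) = M.E := by
  ext e
  simp [mem_EF]

/-- the rank function of the direct sum of `M | A` and `M✶ | (E \ A)` -/
noncomputable def rN (M : Matroid α) (A X : Finset α) : ℕ := rkf M (X ∩ A) + rkf M✶ (X \ A)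

theorem rN_RF (M : Matroid α) (A : Finset α) : IsRF (rN M A) where
  empty := by
    unfold rN
    rw [empty_inter, empty_sdiff, (rkf_RF M).empty, (rkf_RF M✶).empty]
  mono := by
    intro X Y h
    unfold rN
    have h1 := (rkf_RF M).mono _ _ (inter_subset_inter_right h (u := A))
    have h2 := (rkf_RF M✶).mono _ _ (sdiff_subset_sdiff h (subset_refl A))
    omega
  ins := by
    intro e X
    unfold rN
    by_cases he : e ∈ A
    · rw [insert_inter_of_mem he, insert_sdiff_of_mem _ he]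
      have := (rkf_RF M).ins e (X ∩ A)
      omega
    · rw [insert_inter_of_notMem he, insert_sdiff_of_notMem _ he]
      have := (rkf_RF M✶).ins e (X \ A)
      omega
  sub := by
    intro X Y
    unfold rN
    have h1 := (rkf_RF M).sub (X ∩ A) (Y ∩ A)
    have h2 := (rkf_RF M✶).sub (X \ A) (Y \ A)
    have e1 : (X ∪ Y) ∩ A = (X ∩ A) ∪ (Y ∩ A) := union_inter_distrib_right _ _ _
    have e2 : (X ∩ Y) ∩ A = (X ∩ A) ∩ (Y ∩ A) := by
      ext x; simp only [mem_inter]; tauto
    have e3 : (X ∪ Y) \ A = (X \ A) ∪ (Y \ A) := union_sdiff_distrib _ _ _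
    have e4 : (X ∩ Y) \ A = (X \ A) ∩ (Y \ A) := by
      ext x; simp only [mem_inter, mem_sdiff]; tauto
    rw [e1, e2, e3, e4]
    omega

theorem rN_univ (M : Matroid α) (A : Finset α) :
    rN M A univ = rkf M A + rkf M✶ (univ \ A) := by
  unfold rN
  rw [univ_inter]

/-- the partner of a base -/
noncomputable def ph (M : Matroid α) (A B : Finset α) : Finset α := (B ∩ A) ∪ ((EF M \ B) \ A)

theorem compl_base (M : Matroid α) (B : Finset α) (hB : M.IsBase (B : Set α)) :
    M✶.IsBase ((EF M \ B : Finset α) : Set α) := by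
  rw [Finset.coe_sdiff, coe_EF]
  exact hB.compl_isBase_dual

theorem inter_le (M : Matroid α) (A B : Finset α) (hB : M.IsBase (B : Set α)) :
    rkf M (B ∩ A) = (B ∩ A).card ∧ (B ∩ A).card ≤ rkf M A := by
  have h1 : rkf M (B ∩ A) = (B ∩ A).card := by
    apply rkf_of_indep
    apply hB.indep.subset
    exact_mod_cast inter_subset_left
  refine ⟨h1, ?_⟩
  rw [← h1]
  exact (rkf_RF M).mono _ _ inter_subset_right

theorem co_le (M : Matroid α) (A B : Finset α) (hB : M.IsBase (B : Set α)) :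
    rkf M✶ ((EF M \ B) \ A) = ((EF M \ B) \ A).card ∧
      ((EF M \ B) \ A).card ≤ rkf M✶ (univ \ A) := by
  have h1 : rkf M✶ ((EF M \ B) \ A) = ((EF M \ B) \ A).card := by
    apply rkf_of_indep
    apply (compl_base M B hB).indep.subset
    exact_mod_cast sdiff_subset
  refine ⟨h1, ?_⟩
  rw [← h1]
  exact (rkf_RF M✶).mono _ _ (sdiff_subset_sdiff (subset_univ _) (subset_refl _))

theorem base_sub (M : Matroid α) (B : Finset α) (hB : M.IsBase (B : Set α)) : B ⊆ EF M := by
  intro e he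
  rw [mem_EF]
  exact hB.subset_ground (by exact_mod_cast he)

/-- the distance is bounded -/
theorem dist_le (M : Matroid α) (A B₁ B₂ : Finset α) (h₁ : M.IsBase (B₁ : Set α))
    (h₂ : M.IsBase (B₂ : Set α)) : (B₁ \ B₂).card ≤ rN M A univ := by
  rw [rN_univ]
  have h3 := (inter_le M A B₁ h₁).2
  have h4 := (co_le M A B₂ h₂).2
  have h5 : ((B₁ \ B₂) ∩ A).card ≤ (B₁ ∩ A).card :=
    card_le_card (inter_subset_inter_right sdiff_subset)
  have h6 : ((B₁ \ B₂) \ A).card ≤ ((EF M \ B₂) \ A).card :=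
    card_le_card (sdiff_subset_sdiff (sdiff_subset_sdiff (base_sub M B₁ h₁) (subset_refl _))
      (subset_refl _))
  have h7 := card_inter_add_card_sdiff (B₁ \ B₂) A
  omega

theorem sdiff_comm' (M : Matroid α) (B₁ B₂ : Finset α) (h₁ : M.IsBase (B₁ : Set α))
    (h₂ : M.IsBase (B₂ : Set α)) : (B₁ \ B₂).card = (B₂ \ B₁).card := by
  have h := h₁.encard_sdiff_comm h₂
  rw [← Finset.coe_sdiff, ← Finset.coe_sdiff, Set.encard_coe_eq_coe_finsetCard,
    Set.encard_coe_eq_coe_finsetCard] at h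
  exact_mod_cast h

/-- one half of the structure of the pairs at the maximal distance -/
theorem opt_half (M : Matroid α) (A B₁ B₂ : Finset α) (h₁ : M.IsBase (B₁ : Set α))
    (h₂ : M.IsBase (B₂ : Set α)) (hk : rN M A univ ≤ (B₁ \ B₂).card) :
    (B₁ ∩ A).card = rkf M A ∧ ((EF M \ B₂) \ A).card = rkf M✶ (univ \ A) ∧
      Disjoint (B₁ ∩ A) (B₂ ∩ A) ∧ (EF M \ B₂) \ A ⊆ B₁ := by
  rw [rN_univ] at hk
  have h3 := (inter_le M A B₁ h₁).2
  have h4 := (co_le M A B₂ h₂).2
  have s5 : (B₁ \ B₂) ∩ A ⊆ B₁ ∩ A := inter_subset_inter_right sdiff_subset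
  have s6 : (B₁ \ B₂) \ A ⊆ (EF M \ B₂) \ A :=
    sdiff_subset_sdiff (sdiff_subset_sdiff (base_sub M B₁ h₁) (subset_refl _)) (subset_refl _)
  have h5 := card_le_card s5
  have h6 := card_le_card s6
  have h7 := card_inter_add_card_sdiff (B₁ \ B₂) A
  have e5 := eq_of_subset_of_card_le s5 (by omega)
  have e6 := eq_of_subset_of_card_le s6 (by omega)
  refine ⟨by omega, by omega, ?_, ?_⟩
  · rw [← e5, Finset.disjoint_left]
    intro x hx hx'
    simp only [mem_inter, mem_sdiff] at hx hx'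
    exact hx.1.2 hx'.1
  · rw [← e6]
    exact sdiff_subset.trans sdiff_subset

theorem ph_rN (M : Matroid α) (A B : Finset α) :
    (ph M A B) ∩ A = B ∩ A ∧ (ph M A B) \ A = (EF M \ B) \ A := by
  unfold ph
  constructor
  · ext x; simp only [mem_inter, mem_union, mem_sdiff]; tauto
  · ext x; simp only [mem_inter, mem_union, mem_sdiff]; tauto

theorem ph_card (M : Matroid α) (A B : Finset α) :
    (ph M A B).card = (B ∩ A).card + ((EF M \ B) \ A).card := by
  rw [← card_inter_add_card_sdiff (ph M A B) A, (ph_rN M A B).1, (ph_rN M A B).2]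

/-- the partners of a pair at the maximal distance are disjoint bases -/
theorem ph_pair (M : Matroid α) (A B₁ B₂ : Finset α) (h₁ : M.IsBase (B₁ : Set α))
    (h₂ : M.IsBase (B₂ : Set α)) (hk : rN M A univ ≤ (B₁ \ B₂).card) :
    IsBs (rN M A) (ph M A B₁) ∧ IsBs (rN M A) (ph M A B₂) ∧
      Disjoint (ph M A B₁) (ph M A B₂) := by
  have hk' : rN M A univ ≤ (B₂ \ B₁).card := by
    rw [sdiff_comm' M B₂ B₁ h₂ h₁]
    exact hk
  obtain ⟨a1, a2, a3, a4⟩ := opt_half M A B₁ B₂ h₁ h₂ hk
  obtain ⟨b1, b2, b3, b4⟩ := opt_half M A B₂ B₁ h₂ h₁ hk'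
  have key : ∀ B : Finset α, M.IsBase (B : Set α) → (B ∩ A).card = rkf M A →
      ((EF M \ B) \ A).card = rkf M✶ (univ \ A) → IsBs (rN M A) (ph M A B) := by
    intro B hB c1 c2
    have c3 := (inter_le M A B hB).1
    have c4 := (co_le M A B hB).1
    have c5 : rN M A (ph M A B) = rkf M (B ∩ A) + rkf M✶ ((EF M \ B) \ A) := by
      unfold rN
      rw [(ph_rN M A B).1, (ph_rN M A B).2]
    constructor
    · rw [c5, ph_card, c3, c4]
    · rw [c5, rN_univ, c3, c4, c1, c2]
  refine ⟨key B₁ h₁ a1 b2, key B₂ h₂ b1 a2, ?_⟩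
  rw [Finset.disjoint_left]
  intro x hx hx'
  unfold ph at hx hx'
  rw [mem_union] at hx hx'
  rcases hx with hx | hx
  · rcases hx' with hx' | hx'
    · exact Finset.disjoint_left.1 a3 hx hx'
    · exact (mem_sdiff.1 hx').2 (mem_inter.1 hx).2
  · rcases hx' with hx' | hx'
    · exact (mem_sdiff.1 hx).2 (mem_inter.1 hx').2
    · have h3 := a4 hx'
      have h4 := (mem_sdiff.1 (mem_sdiff.1 hx).1).2
      exact h4 h3

/-- every base of `rN` is the partner of a base -/
theorem exists_ph (M : Matroid α) (A D : Finset α) (hD : IsBs (rN M A) D) :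
    ∃ B : Finset α, M.IsBase (B : Set α) ∧ ph M A B = D := by
  obtain ⟨h1, h2⟩ := hD
  rw [rN_univ] at h2
  unfold rN at h1 h2
  have r1 := r_le_card (rkf_RF M) (D ∩ A)
  have r2 := r_le_card (rkf_RF M✶) (D \ A)
  have r3 := (rkf_RF M).mono _ _ (inter_subset_right (s₁ := D) (s₂ := A))
  have r4 := (rkf_RF M✶).mono _ _ (sdiff_subset_sdiff (subset_univ D) (subset_refl A))
  have r5 := card_inter_add_card_sdiff D A
  have i1 : M.Indep ((D ∩ A : Finset α) : Set α) := indep_of_rkf M _ (by omega)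
  have i2 : M✶.Indep ((D \ A : Finset α) : Set α) := indep_of_rkf M✶ _ (by omega)
  rw [Matroid.dual_indep_iff_exists'] at i2
  obtain ⟨hsub, B₀, hB₀, hdisj⟩ := i2
  obtain ⟨B', hB', hI, hU⟩ := i1.exists_isBase_subset_union_isBase hB₀
  obtain ⟨B, rfl⟩ : ∃ B : Finset α, (B : Set α) = B' := ⟨B'.toFinite.toFinset, Set.Finite.coe_toFinset _⟩
  refine ⟨B, hB', ?_⟩
  have hI' : D ∩ A ⊆ B ∩ A := by
    intro x hx
    refine mem_inter.2 ⟨?_, (mem_inter.1 hx).2⟩
    exact_mod_cast hI (by exact_mod_cast hx)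
  have hJ' : D \ A ⊆ (EF M \ B) \ A := by
    intro x hx
    rw [mem_sdiff, mem_sdiff, mem_EF]
    have hxD := mem_sdiff.1 hx
    refine ⟨⟨hsub (by exact_mod_cast hx), fun hxB => ?_⟩, hxD.2⟩
    rcases hU (by exact_mod_cast hxB) with h3 | h3
    · have h4 : x ∈ D ∩ A := by exact_mod_cast h3
      exact hxD.2 (mem_inter.1 h4).2
    · exact Set.disjoint_left.1 hdisj (by exact_mod_cast hx) h3
  have e1 : D ∩ A = B ∩ A := eq_of_subset_of_card_le hI' (by
    have := (inter_le M A B hB').2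
    omega)
  have e2 : D \ A = (EF M \ B) \ A := eq_of_subset_of_card_le hJ' (by
    have := (co_le M A B hB').2
    omega)
  unfold ph
  rw [← e1, ← e2]
  ext x; simp only [mem_inter, mem_union, mem_sdiff]; tauto

/-- disjoint bases of `rN` come from pairs at the maximal distance -/
theorem dist_of_disjoint (M : Matroid α) (A B₁ B₂ : Finset α) (h₁ : M.IsBase (B₁ : Set α))
    (h₂ : M.IsBase (B₂ : Set α)) (hD₁ : IsBs (rN M A) (ph M A B₁))
    (hD₂ : IsBs (rN M A) (ph M A B₂)) (hd : Disjoint (ph M A B₁) (ph M A B₂)) :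
    rN M A univ ≤ (B₁ \ B₂).card := by
  have a1 : (B₁ ∩ A).card = rkf M A ∧ ((EF M \ B₂) \ A).card = rkf M✶ (univ \ A) := by
    have c1 := inter_le M A B₁ h₁
    have c2 := co_le M A B₁ h₁
    have c3 := inter_le M A B₂ h₂
    have c4 := co_le M A B₂ h₂
    have c5 := ph_card M A B₁
    have c6 := ph_card M A B₂
    have c7 := rN_univ M A
    have c8 := hD₁.1.symm.trans hD₁.2
    have c9 := hD₂.1.symm.trans hD₂.2
    omega
  have h7 := card_inter_add_card_sdiff (B₁ \ B₂) A
  have s1 : B₁ ∩ A ⊆ (B₁ \ B₂) ∩ A := by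
    intro x hx
    rw [mem_inter] at hx
    rw [mem_inter, mem_sdiff]
    refine ⟨⟨hx.1, fun hx2 => ?_⟩, hx.2⟩
    have q1 : x ∈ ph M A B₁ := by
      unfold ph
      exact mem_union_left _ (mem_inter.2 hx)
    have q2 : x ∈ ph M A B₂ := by
      unfold ph
      exact mem_union_left _ (mem_inter.2 ⟨hx2, hx.2⟩)
    exact Finset.disjoint_left.1 hd q1 q2
  have s2 : (EF M \ B₂) \ A ⊆ (B₁ \ B₂) \ A := by
    intro x hx
    rw [mem_sdiff, mem_sdiff] at hx
    rw [mem_sdiff, mem_sdiff]
    refine ⟨⟨?_, hx.1.2⟩, hx.2⟩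
    by_contra hx1
    have q1 : x ∈ ph M A B₁ := by
      unfold ph
      apply mem_union_right
      rw [mem_sdiff, mem_sdiff]
      exact ⟨⟨hx.1.1, hx1⟩, hx.2⟩
    have q2 : x ∈ ph M A B₂ := by
      unfold ph
      apply mem_union_right
      rw [mem_sdiff, mem_sdiff]
      exact hx
    exact Finset.disjoint_left.1 hd q1 q2
  have h8 := card_le_card s1
  have h9 := card_le_card s2
  rw [rN_univ]
  omega

theorem exists_A (M : Matroid α) : ∃ A C₁ C₂ : Finset α, M.IsBase (C₁ : Set α) ∧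
    M.IsBase (C₂ : Set α) ∧ rN M A univ ≤ (C₁ \ C₂).card := by
  classical
  obtain ⟨A, -, hA⟩ := Finset.exists_min_image (Finset.univ : Finset (Finset α))
    (fun A => rkf M A + rkf M✶ (Finset.univ \ A)) ⟨∅, Finset.mem_univ _⟩
  obtain ⟨I, -, hI1, hI2, hIk⟩ := Pool.Agent.H478R3.Borsuk.inter _ (Finset.univ : Finset α)
    (rkf M) (rkf M✶) rfl
    (rkf_RF M) (rkf_RF M✶) (rkf M A + rkf M✶ (Finset.univ \ A))
    (fun B _ => hA B (Finset.mem_univ _))
  have i1 := indep_of_rkf M I hI1
  have i2 := indep_of_rkf M✶ I hI2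
  obtain ⟨C₁', hC₁, hIC⟩ := i1.exists_isBase_superset
  obtain ⟨D', hD, hID⟩ := i2.exists_isBase_superset
  obtain ⟨C₁, rfl⟩ : ∃ B : Finset α, (B : Set α) = C₁' := ⟨C₁'.toFinite.toFinset, Set.Finite.coe_toFinset _⟩
  obtain ⟨D, rfl⟩ : ∃ B : Finset α, (B : Set α) = D' := ⟨D'.toFinite.toFinset, Set.Finite.coe_toFinset _⟩
  have hC₂ : M.IsBase ((EF M \ D : Finset α) : Set α) := by
    have := hD.compl_isBase_dual
    rw [Matroid.dual_dual, Matroid.dual_ground] at this
    rw [Finset.coe_sdiff, coe_EF]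
    exact this
  refine ⟨A, C₁, EF M \ D, hC₁, hC₂, ?_⟩
  rw [rN_univ]
  refine hIk.trans (card_le_card ?_)
  intro x hx
  rw [mem_sdiff, mem_sdiff]
  refine ⟨?_, fun h => h.2 ?_⟩
  · exact_mod_cast hIC (by exact_mod_cast hx)
  · exact_mod_cast hID (by exact_mod_cast hx)

/-- a set `X` misses many elements -/
theorem miss (M : Matroid α) (A C₁ C₂ : Finset α) (h₁ : M.IsBase (C₁ : Set α))
    (h₂ : M.IsBase (C₂ : Set α)) (hk : rN M A univ ≤ (C₁ \ C₂).card) (X : Finset α) :
    2 * rN M A univ ≤ 2 * rN M A X + (univ \ X).card := by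
  obtain ⟨b1, b2, hd⟩ := ph_pair M A C₁ C₂ h₁ h₂ hk
  have hr := rN_RF M A
  have key : ∀ D : Finset α, IsBs (rN M A) D → rN M A univ ≤ rN M A X + (D \ X).card := by
    intro D hD
    have h1 := r_union_card hr X (D \ X)
    have h2 := hr.mono D (X ∪ D \ X) (by
      intro x hx
      by_cases hx' : x ∈ X
      · exact mem_union_left _ hx'
      · exact mem_union_right _ (mem_sdiff.2 ⟨hx, hx'⟩))
    rw [← hD.2]
    omega
  have k1 := key _ b1
  have k2 := key _ b2
  have h3 : (ph M A C₁ \ X).card + (ph M A C₂ \ X).card ≤ (univ \ X).card := by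
    rw [← card_union_of_disjoint]
    · apply card_le_card
      apply union_subset
      · exact sdiff_subset_sdiff (subset_univ _) (subset_refl _)
      · exact sdiff_subset_sdiff (subset_univ _) (subset_refl _)
    · exact Finset.disjoint_of_subset_left sdiff_subset
        (Finset.disjoint_of_subset_right sdiff_subset hd)
  omega

/-- an injective numbering of the elements of `T` -/
theorem exists_num (T : Finset α) : ∃ p : α → ℕ, (∀ x ∈ T, p x < T.card) ∧
    ∀ x ∈ T, ∀ y ∈ T, p x = p y → x = y := by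
  classical
  refine ⟨fun x => if h : x ∈ T then (T.equivFin ⟨x, h⟩).val else 0, ?_, ?_⟩
  · intro x hx
    simp only [hx, dif_pos]
    exact (T.equivFin ⟨x, hx⟩).isLt
  · intro x hx y hy hxy
    simp only [hx, hy, dif_pos] at hxy
    have := T.equivFin.injective (Fin.ext hxy)
    exact congrArg Subtype.val this

/-- **Colourings of Kneser type.** -/
theorem kneser_upper (M : Matroid α) (A C₁ C₂ : Finset α) (h₁ : M.IsBase (C₁ : Set α))
    (h₂ : M.IsBase (C₂ : Set α)) (hk : rN M A univ ≤ (C₁ \ C₂).card) (C : Finset α)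
    (hC : rN M A C < rN M A univ) (k : ℕ)
    (hkC : (univ \ C).card + 2 * rN M A C + 2 ≤ k + 2 * rN M A univ) :
    ∃ f : Finset α → ℕ, (∀ B, f B < k) ∧ ∀ B₁ B₂ : Finset α, M.IsBase (B₁ : Set α) →
      M.IsBase (B₂ : Set α) → rN M A univ ≤ (B₁ \ B₂).card → f B₁ ≠ f B₂ := by
  have hmiss := miss M A C₁ C₂ h₁ h₂ hk C
  set T := (univ : Finset α) \ C with hT
  set s := rN M A univ - rN M A C with hs
  obtain ⟨p, hp1, hp2⟩ := exists_num T
  -- the smallest number in `D`
  let mp : Finset α → ℕ := fun D => sInf {j | ∃ x ∈ D, x ∈ T ∧ p x = j}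
  have mp_mem : ∀ D : Finset α, (∃ x ∈ D, x ∈ T) → ∃ x ∈ D, x ∈ T ∧ p x = mp D := by
    intro D ⟨x, hx, hxT⟩
    exact Nat.sInf_mem (s := {j | ∃ x ∈ D, x ∈ T ∧ p x = j}) ⟨p x, x, hx, hxT, rfl⟩
  have mp_le : ∀ (D : Finset α) (x : α), x ∈ D → x ∈ T → mp D ≤ p x := by
    intro D x hx hxT
    exact Nat.sInf_le ⟨x, hx, hxT, rfl⟩
  refine ⟨fun B => min (mp (ph M A B)) (T.card + 1 - 2 * s), ?_, ?_⟩
  · intro B
    have : min (mp (ph M A B)) (T.card + 1 - 2 * s) ≤ T.card + 1 - 2 * s := min_le_right _ _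
    show min (mp (ph M A B)) (T.card + 1 - 2 * s) < k
    omega
  · intro B₁ B₂ hB₁ hB₂ hkB
    obtain ⟨b1, b2, hd⟩ := ph_pair M A B₁ B₂ hB₁ hB₂ hkB
    have hr := rN_RF M A
    have key : ∀ D : Finset α, IsBs (rN M A) D → s ≤ (D ∩ T).card := by
      intro D hD
      have h1 := r_union_card hr C (D \ C)
      have h2 := hr.mono D (C ∪ D \ C) (by
        intro x hx
        by_cases hx' : x ∈ C
        · exact mem_union_left _ hx'
        · exact mem_union_right _ (mem_sdiff.2 ⟨hx, hx'⟩))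
      have h3 : D ∩ T = D \ C := by
        ext x; simp [hT]
      rw [h3]
      have h4 := hD.2
      omega
    have k1 := key _ b1
    have k2 := key _ b2
    have n1 : ∃ x ∈ ph M A B₁, x ∈ T := by
      have : 0 < (ph M A B₁ ∩ T).card := by omega
      obtain ⟨x, hx⟩ := card_pos.1 this
      exact ⟨x, (mem_inter.1 hx).1, (mem_inter.1 hx).2⟩
    have n2 : ∃ x ∈ ph M A B₂, x ∈ T := by
      have : 0 < (ph M A B₂ ∩ T).card := by omega
      obtain ⟨x, hx⟩ := card_pos.1 this
      exact ⟨x, (mem_inter.1 hx).1, (mem_inter.1 hx).2⟩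
    obtain ⟨x₁, hx₁, hx₁T, hpx₁⟩ := mp_mem _ n1
    obtain ⟨x₂, hx₂, hx₂T, hpx₂⟩ := mp_mem _ n2
    show min (mp (ph M A B₁)) (T.card + 1 - 2 * s) ≠ min (mp (ph M A B₂)) (T.card + 1 - 2 * s)
    have hne : mp (ph M A B₁) ≠ mp (ph M A B₂) := by
      intro he
      have : x₁ = x₂ := hp2 _ hx₁T _ hx₂T (by rw [hpx₁, hpx₂, he])
      subst this
      exact Finset.disjoint_left.1 hd hx₁ hx₂
    intro heq
    have hbig : T.card + 1 - 2 * s ≤ mp (ph M A B₁) ∧ T.card + 1 - 2 * s ≤ mp (ph M A B₂) := by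
      rcases le_total (mp (ph M A B₁)) (T.card + 1 - 2 * s) with c1 | c1 <;>
        rcases le_total (mp (ph M A B₂)) (T.card + 1 - 2 * s) with c2 | c2
      · rw [min_eq_left c1, min_eq_left c2] at heq
        exact absurd heq hne
      · rw [min_eq_left c1, min_eq_right c2] at heq
        omega
      · rw [min_eq_right c1, min_eq_left c2] at heq
        omega
      · exact ⟨c1, c2⟩
    -- count
    have hsub : ((ph M A B₁ ∩ T) ∪ (ph M A B₂ ∩ T)).image p ⊆
        Finset.Ico (T.card + 1 - 2 * s) T.card := by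
      intro j hj
      rw [mem_image] at hj
      obtain ⟨x, hx, rfl⟩ := hj
      rw [mem_Ico]
      rcases mem_union.1 hx with hx | hx
      · rw [mem_inter] at hx
        exact ⟨hbig.1.trans (mp_le _ x hx.1 hx.2), hp1 x hx.2⟩
      · rw [mem_inter] at hx
        exact ⟨hbig.2.trans (mp_le _ x hx.1 hx.2), hp1 x hx.2⟩
    have hcard := card_le_card hsub
    rw [Nat.card_Ico, card_image_of_injOn, card_union_of_disjoint] at hcard
    · omega
    · exact Finset.disjoint_of_subset_left inter_subset_left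
        (Finset.disjoint_of_subset_right inter_subset_left hd)
    · intro x hx y hy hxy
      have hxT : x ∈ T := by
        rcases mem_union.1 (by exact_mod_cast hx) with h | h
        · exact (mem_inter.1 h).2
        · exact (mem_inter.1 h).2
      have hyT : y ∈ T := by
        rcases mem_union.1 (by exact_mod_cast hy) with h | h
        · exact (mem_inter.1 h).2
        · exact (mem_inter.1 h).2
      exact hp2 x hxT y hyT hxy

end Pool.Agent.Q163.BN
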