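import Mathlib
import Pool.Agent.Q163.BN.Single

set_option autoImplicit false
set_option linter.unusedSectionVars false
set_option linter.unusedVariables false

/-!
The lower bound for pairs of bases of two matroids.
-/

namespace Pool.Agent.Q163.BN

open Finset
open Pool.Agent.H478R3.Borsuk (IsRF)

variable {α β : Type} [Fintype α] [DecidableEq α] [Fintype β] [DecidableEq β]

/-- the rank function of the direct sum -/
def rS (r : Finset α → ℕ) (r' : Finset β → ℕ) (X : Finset (α ⊕ β)) : ℕ :=
  r X.toLeft + r' X.toRight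

theorem rS_RF {r : Finset α → ℕ} {r' : Finset β → ℕ} (h : IsRF r) (h' : IsRF r') :
    IsRF (rS r r') where
  empty := by
    unfold rS
    have e1 : (∅ : Finset (α ⊕ β)).toLeft = ∅ := by ext x; simp
    have e2 : (∅ : Finset (α ⊕ β)).toRight = ∅ := by ext x; simp
    rw [e1, e2, h.empty, h'.empty]
  mono := by
    intro X Y hXY
    unfold rS
    have h1 := h.mono _ _ (toLeft_subset_toLeft hXY)
    have h2 := h'.mono _ _ (toRight_subset_toRight hXY)
    omega
  ins := by
    intro e X
    unfold rS
    rcases e with e | e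
    · have e1 : (insert (Sum.inl e) X).toLeft = insert e X.toLeft := by ext y; simp
      have e2 : (insert (Sum.inl e) X).toRight = X.toRight := by ext y; simp
      rw [e1, e2]
      have := h.ins e X.toLeft
      omega
    · have e1 : (insert (Sum.inr e) X).toLeft = X.toLeft := by ext y; simp
      have e2 : (insert (Sum.inr e) X).toRight = insert e X.toRight := by ext y; simp
      rw [e1, e2]
      have := h'.ins e X.toRight
      omega
  sub := by
    intro X Y
    unfold rS
    have h1 := h.sub X.toLeft Y.toLeft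
    have h2 := h'.sub X.toRight Y.toRight
    have e1 : (X ∪ Y).toLeft = X.toLeft ∪ Y.toLeft := by ext y; simp
    have e2 : (X ∪ Y).toRight = X.toRight ∪ Y.toRight := by ext y; simp
    have e3 : (X ∩ Y).toLeft = X.toLeft ∩ Y.toLeft := by ext y; simp
    have e4 : (X ∩ Y).toRight = X.toRight ∩ Y.toRight := by ext y; simp
    rw [e1, e2, e3, e4]
    omega

theorem toLeft_univ' : (univ : Finset (α ⊕ β)).toLeft = univ := by ext x; simp

theorem toRight_univ' : (univ : Finset (α ⊕ β)).toRight = univ := by ext x; simp

theorem base_sum {r : Finset α → ℕ} {r' : Finset β → ℕ} (h : IsRF r) (h' : IsRF r')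
    (D : Finset (α ⊕ β)) (hD : IsBs (rS r r') D) : IsBs r D.toLeft ∧ IsBs r' D.toRight := by
  obtain ⟨h1, h2⟩ := hD
  unfold rS at h1 h2
  rw [toLeft_univ', toRight_univ'] at h2
  have h3 := r_le_card h D.toLeft
  have h4 := r_le_card h' D.toRight
  have h5 := card_toLeft_add_card_toRight (u := D)
  have h6 := h.mono _ _ (subset_univ D.toLeft)
  have h7 := h'.mono _ _ (subset_univ D.toRight)
  exact ⟨⟨by omega, by omega⟩, ⟨by omega, by omega⟩⟩

theorem kneser_sum (M : Matroid α) (M' : Matroid β)
    (A C₁ C₂ : Finset α) (h₁ : M.IsBase (C₁ : Set α))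
    (h₂ : M.IsBase (C₂ : Set α)) (hk : rN M A univ ≤ (C₁ \ C₂).card)
    (A' C₁' C₂' : Finset β) (h₁' : M'.IsBase (C₁' : Set β))
    (h₂' : M'.IsBase (C₂' : Set β)) (hk' : rN M' A' univ ≤ (C₁' \ C₂').card)
    (k : ℕ) (g : Finset α → Finset β → Fin k)
    (hg : ∀ (B₁ B₂ : Finset α) (B₁' B₂' : Finset β), M.IsBase (B₁ : Set α) →
      M.IsBase (B₂ : Set α) → M'.IsBase (B₁' : Set β) → M'.IsBase (B₂' : Set β) →
      rN M A univ ≤ (B₁ \ B₂).card → rN M' A' univ ≤ (B₁' \ B₂').card → g B₁ B₁' ≠ g B₂ B₂') :
    (∃ C : Finset α, rN M A C < rN M A univ ∧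
      (univ \ C).card + 2 * rN M A C + 2 ≤ k + 2 * rN M A univ) ∨
    (∃ C : Finset β, rN M' A' C < rN M' A' univ ∧
      (univ \ C).card + 2 * rN M' A' C + 2 ≤ k + 2 * rN M' A' univ) := by
  classical
  rcases isEmpty_or_nonempty (α ⊕ β) with hemp | hne
  · exfalso
    rw [isEmpty_sum] at hemp
    have := hemp.1
    have := hemp.2
    have e1 : C₁ = C₂ := Subsingleton.elim _ _
    have e2 : C₁' = C₂' := Subsingleton.elim _ _
    subst e1
    subst e2
    exact hg C₁ C₁ C₁' C₁' h₁ h₁ h₁' h₁' hk hk' rfl
  · have hR := rN_RF M A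
    have hR' := rN_RF M' A'
    have hRF := rS_RF hR hR'
    -- the partner map backwards
    let ps : Finset α → Finset α := fun D =>
      if h : ∃ B : Finset α, M.IsBase (B : Set α) ∧ ph M A B = D then h.choose else ∅
    let ps' : Finset β → Finset β := fun D =>
      if h : ∃ B : Finset β, M'.IsBase (B : Set β) ∧ ph M' A' B = D then h.choose else ∅
    have hps : ∀ D, IsBs (rN M A) D → M.IsBase ((ps D : Finset α) : Set α) ∧ ph M A (ps D) = D := by
      intro D hD
      have h := exists_ph M A D hD
      simp only [ps]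
      rw [dif_pos h]
      exact h.choose_spec
    have hps' : ∀ D, IsBs (rN M' A') D →
        M'.IsBase ((ps' D : Finset β) : Set β) ∧ ph M' A' (ps' D) = D := by
      intro D hD
      have h := exists_ph M' A' D hD
      simp only [ps']
      rw [dif_pos h]
      exact h.choose_spec
    obtain ⟨C, hC, hCk⟩ := kneser_lower (γ := α ⊕ β) (m := k) hRF
      (fun D => g (ps D.toLeft) (ps' D.toRight)) (by
        intro D E hD hE hd
        obtain ⟨hD1, hD2⟩ := base_sum hR hR' D hD
        obtain ⟨hE1, hE2⟩ := base_sum hR hR' E hE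
        obtain ⟨a1, a2⟩ := hps _ hD1
        obtain ⟨a3, a4⟩ := hps' _ hD2
        obtain ⟨b1, b2⟩ := hps _ hE1
        obtain ⟨b3, b4⟩ := hps' _ hE2
        have d1 : Disjoint D.toLeft E.toLeft := by
          rw [Finset.disjoint_left]
          intro x hx hx'
          rw [mem_toLeft] at hx hx'
          exact Finset.disjoint_left.1 hd hx hx'
        have d2 : Disjoint D.toRight E.toRight := by
          rw [Finset.disjoint_left]
          intro x hx hx'
          rw [mem_toRight] at hx hx'
          exact Finset.disjoint_left.1 hd hx hx'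
        apply hg _ _ _ _ a1 b1 a3 b3
        · apply dist_of_disjoint M A _ _ a1 b1
          · rw [a2]; exact hD1
          · rw [b2]; exact hE1
          · rw [a2, b2]; exact d1
        · apply dist_of_disjoint M' A' _ _ a3 b3
          · rw [a4]; exact hD2
          · rw [b4]; exact hE2
          · rw [a4, b4]; exact d2)
    have m1 := miss M A C₁ C₂ h₁ h₂ hk C.toLeft
    have m2 := miss M' A' C₁' C₂' h₁' h₂' hk' C.toRight
    unfold rS at hC hCk
    rw [toLeft_univ', toRight_univ'] at hC hCk
    have c1 := card_toLeft_add_card_toRight (u := C)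
    have c2 : Fintype.card (α ⊕ β) = Fintype.card α + Fintype.card β := Fintype.card_sum
    have c3 : (univ \ C.toLeft).card + C.toLeft.card = Fintype.card α := by
      rw [card_sdiff_add_card_eq_card (subset_univ _), card_univ]
    have c4 : (univ \ C.toRight).card + C.toRight.card = Fintype.card β := by
      rw [card_sdiff_add_card_eq_card (subset_univ _), card_univ]
    have c5 := hR.mono _ _ (subset_univ C.toLeft)
    have c6 := hR'.mono _ _ (subset_univ C.toRight)
    by_cases hcase : rN M A C.toLeft < rN M A univ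
    · left
      exact ⟨C.toLeft, hcase, by omega⟩
    · right
      exact ⟨C.toRight, by omega, by omega⟩

end Pool.Agent.Q163.BN
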